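import Pool.Agent.helper8.T6.SpecC2

set_option autoImplicit false

/-!
# T6, row TEA: sum of a multiplicative function
-/

namespace Pool.Agent.T6

open Finset Pool.Agent.T5

theorem TEA : TEA_stmt := by
  classical
  intro G D hG
  set P := (range (D + 1)).filter Nat.Prime with hP
  set G' : ℕ → ℕ → ℝ := fun p a => if a = 0 then 1 else G p a with hG'
  have hG'0 : ∀ p a, 0 ≤ G' p a := by
    intro p a
    simp only [hG']
    split_ifs
    · exact zero_le_one
    · exact hG p a
  set T : ((a : ℕ) → a ∈ P → ℕ) → ℝ := fun φ => ∏ x ∈ P.attach, G' x.1 (φ x.1 x.2) with hT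
  have hR : ∏ p ∈ P, (1 + ∑ a ∈ Icc 1 D, G p a) = ∑ φ ∈ P.pi (fun _ => range (D + 1)), T φ := by
    have h1 : ∀ p ∈ P, (1 + ∑ a ∈ Icc 1 D, G p a) = ∑ a ∈ range (D + 1), G' p a := by
      intro p _
      rw [Finset.sum_range_succ', add_comm]
      have h2 : ∑ a ∈ Icc 1 D, G p a = ∑ a ∈ range D, G' p (a + 1) := by
        rw [Finset.range_eq_Ico, Finset.sum_Ico_add' (fun a => G' p a) 0 D 1]
        refine Finset.sum_congr ?_ fun a ha => ?_
        · ext a
          simp only [mem_Icc, mem_Ico]
          omega
        · have : a ≠ 0 := by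
            have := (mem_Ico.1 ha).1
            omega
          simp only [hG', if_neg this]
      rw [h2]
      have h3 : G' p 0 = 1 := by simp only [hG', if_true]
      rw [h3]
    rw [Finset.prod_congr rfl h1, Finset.prod_sum]
  have hL : ∀ d ∈ Icc 1 D, ∏ p ∈ d.primeFactors, G p (d.factorization p) =
      T (fun p _ => d.factorization p) := by
    intro d hd
    have hd1 := (mem_Icc.1 hd).1
    have hd2 := (mem_Icc.1 hd).2
    have h1 : T (fun p _ => d.factorization p) = ∏ p ∈ P, G' p (d.factorization p) := by
      rw [hT]
      exact Finset.prod_attach P (fun p => G' p (d.factorization p))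
    have h2 : d.primeFactors ⊆ P := by
      intro p hp
      have hpp := Nat.prime_of_mem_primeFactors hp
      have hle := Nat.le_of_mem_primeFactors hp
      rw [hP, mem_filter, mem_range]
      exact ⟨by omega, hpp⟩
    rw [h1, ← Finset.prod_subset h2]
    · refine Finset.prod_congr rfl fun p hp => ?_
      have h3 : d.factorization p ≠ 0 := by
        have : p ∈ d.factorization.support := by
          rw [Nat.support_factorization]
          exact hp
        exact Finsupp.mem_support_iff.1 this
      simp only [hG', if_neg h3]
    · intro p _ hp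
      have h3 : d.factorization p = 0 := by
        by_contra h
        exact hp (by rw [← Nat.support_factorization]; exact Finsupp.mem_support_iff.2 h)
      simp only [hG', h3, if_true]
  rw [hR, Finset.sum_congr rfl hL]
  have hinj : Set.InjOn (fun (d : ℕ) => (fun (p : ℕ) (_ : p ∈ P) => d.factorization p)) (Icc 1 D : Finset ℕ) := by
    intro d hd e he hde
    have hd1 := mem_Icc.1 (Finset.mem_coe.1 hd)
    have he1 := mem_Icc.1 (Finset.mem_coe.1 he)
    refine Nat.eq_of_factorization_eq (by omega) (by omega) fun p => ?_
    by_cases hp : p ∈ P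
    · exact congrFun (congrFun hde p) hp
    · have key : ∀ f : ℕ, 1 ≤ f → f ≤ D → f.factorization p = 0 := by
        intro f hf1 hf2
        by_contra h
        apply hp
        have h1 : p ∈ f.primeFactors := by
          rw [← Nat.support_factorization]
          exact Finsupp.mem_support_iff.2 h
        have hpp := Nat.prime_of_mem_primeFactors h1
        have hle := Nat.le_of_mem_primeFactors h1
        rw [hP, mem_filter, mem_range]
        exact ⟨by omega, hpp⟩
      rw [key d hd1.1 hd1.2, key e he1.1 he1.2]
  rw [← Finset.sum_image (f := T) hinj]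
  refine Finset.sum_le_sum_of_subset_of_nonneg ?_ fun φ _ _ => Finset.prod_nonneg fun x _ => hG'0 _ _
  intro φ hφ
  obtain ⟨d, hd, rfl⟩ := Finset.mem_image.1 hφ
  have hd1 := mem_Icc.1 hd
  rw [Finset.mem_pi]
  intro p _
  rw [mem_range]
  have := Nat.factorization_lt (n := d) p (by omega)
  omega

end Pool.Agent.T6
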